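import Mathlib

/-!
# Unique codings on the fat Sierpinski gasket: failure of local constancy

For every `β` in `[φ, 2)`, `φ` the golden ratio, the map `β ↦ Ũ_β` is not locally constant at `β`.
In particular it is not locally constant on a set of positive Lebesgue measure.
-/

open Set Filter Topology MeasureTheory

namespace Pool.Agent.Results.MP_c4d56e_an.NowhereLocallyConstant

/-- The three digits `A = (0,0)`, `B = (1,0)`, `C = (0,1)`, indexed by `0, 1, 2`. -/
def digit : Fin 3 → ℝ × ℝ := ![(0, 0), (1, 0), (0, 1)]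

/-- `π_β((d_i)) = ∑_{i ≥ 1} d_i / β^i` (sequences are indexed from `0` here). -/
noncomputable def proj (β : ℝ) (d : ℕ → Fin 3) : ℝ × ℝ := ∑' i : ℕ, (β ^ (i + 1))⁻¹ • digit (d i)

/-- `U_β`, the set of points with exactly one coding. -/
def U (β : ℝ) : Set (ℝ × ℝ) := {x | ∃! d : ℕ → Fin 3, proj β d = x}

/-- `Ũ_β = π_β⁻¹(U_β)`, the set of unique codings. -/
def Utilde (β : ℝ) : Set (ℕ → Fin 3) := proj β ⁻¹' U β

/-- Local constancy of `β ↦ Ũ_β` at `β`, for the parameter interval `(1,2)`. -/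
def LocallyConstantAt (β : ℝ) : Prop :=
  ∃ ε > 0, ∀ β' ∈ Ioo (1 : ℝ) 2, |β' - β| < ε → Utilde β' = Utilde β

/-- indicator of a letter -/
noncomputable def ind (k : Fin 3) (d : ℕ → Fin 3) (i : ℕ) : ℝ := if d i = k then 1 else 0

lemma ind_nonneg (k : Fin 3) (d : ℕ → Fin 3) (i : ℕ) : 0 ≤ ind k d i := by
  unfold ind; split_ifs <;> norm_num

lemma ind_le_one (k : Fin 3) (d : ℕ → Fin 3) (i : ℕ) : ind k d i ≤ 1 := by
  unfold ind; split_ifs <;> norm_num

/-- the value of a digit sequence -/
noncomputable def val (β : ℝ) (x : ℕ → ℝ) : ℝ := ∑' i : ℕ, x i * (β ^ (i + 1))⁻¹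

section real

variable {β : ℝ}

lemma hasSum_geo (hβ : 1 < β) : HasSum (fun i : ℕ => (β ^ (i + 1))⁻¹) (1 / (β - 1)) := by
  have h0 : (0 : ℝ) < β := by linarith
  have h1 : β⁻¹ < 1 := inv_lt_one_of_one_lt₀ hβ
  have h := (hasSum_geometric_of_lt_one (inv_nonneg.mpr h0.le) h1).mul_left β⁻¹
  have e : β⁻¹ * (1 - β⁻¹)⁻¹ = 1 / (β - 1) := by
    have : β - 1 ≠ 0 := by linarith
    have h2 : 1 - β⁻¹ = (β - 1) / β := by field_simp
    rw [h2]
    field_simp
  rw [e] at h
  have e2 : (fun i : ℕ => (β ^ (i + 1))⁻¹) = fun i : ℕ => β⁻¹ * β⁻¹ ^ i := by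
    funext i
    rw [← inv_pow, pow_succ']
  rw [e2]
  exact h

lemma summable_val (hβ : 1 < β) {x : ℕ → ℝ} (h0 : ∀ i, 0 ≤ x i) (h1 : ∀ i, x i ≤ 1) :
    Summable (fun i : ℕ => x i * (β ^ (i + 1))⁻¹) := by
  have hb : (0 : ℝ) < β := by linarith
  refine Summable.of_nonneg_of_le (fun i => ?_) (fun i => ?_) (hasSum_geo hβ).summable
  · have := h0 i
    positivity
  · exact mul_le_of_le_one_left (by positivity) (h1 i)

lemma val_nonneg (hβ : 1 < β) {x : ℕ → ℝ} (h0 : ∀ i, 0 ≤ x i) : 0 ≤ val β x := by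
  have hb : (0 : ℝ) < β := by linarith
  apply tsum_nonneg
  intro i
  have := h0 i
  positivity

lemma val_le (hβ : 1 < β) {x : ℕ → ℝ} (h0 : ∀ i, 0 ≤ x i) (h1 : ∀ i, x i ≤ 1) :
    val β x ≤ 1 / (β - 1) := by
  have hb : (0 : ℝ) < β := by linarith
  rw [← (hasSum_geo hβ).tsum_eq]
  apply Summable.tsum_le_tsum _ (summable_val hβ h0 h1) (hasSum_geo hβ).summable
  intro i
  exact mul_le_of_le_one_left (by positivity) (h1 i)

lemma val_shift (hβ : 1 < β) {x : ℕ → ℝ} (h0 : ∀ i, 0 ≤ x i) (h1 : ∀ i, x i ≤ 1) :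
    β * val β x = x 0 + val β (fun i => x (i + 1)) := by
  have hb : (0 : ℝ) < β := by linarith
  unfold val
  rw [(summable_val hβ h0 h1).tsum_eq_zero_add, mul_add, ← tsum_mul_left]
  congr 1
  · field_simp
    ring
  · apply tsum_congr
    intro i
    rw [pow_succ β (i + 1)]
    field_simp

/-- Values of sequences produced by a bounded remainder recursion. -/
lemma val_of_rec (hβ : 1 < β) {x r : ℕ → ℝ} (h0 : ∀ i, 0 ≤ x i) (h1 : ∀ i, x i ≤ 1)
    (hr : ∀ n, r (n + 1) = β * r n - x n) {M : ℝ} (hM : ∀ n, |r n| ≤ M) (n : ℕ) :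
    val β (fun i => x (n + i)) = r n := by
  have hb : (0 : ℝ) < β := by linarith
  have hpart : ∀ N : ℕ, ∑ i ∈ Finset.range N, x (n + i) * (β ^ (i + 1))⁻¹ =
      r n - r (n + N) * (β ^ N)⁻¹ := by
    intro N
    induction N with
    | zero => simp
    | succ N ih =>
      rw [Finset.sum_range_succ, ih]
      have := hr (n + N)
      rw [show n + (N + 1) = n + N + 1 by ring, this, pow_succ]
      field_simp
      ring
  have hlim : Tendsto (fun N : ℕ => r n - r (n + N) * (β ^ N)⁻¹) atTop (𝓝 (r n - 0)) := by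
    apply Tendsto.sub tendsto_const_nhds
    have h2 : Tendsto (fun N : ℕ => M * (β⁻¹) ^ N) atTop (𝓝 (M * 0)) :=
      (tendsto_pow_atTop_nhds_zero_of_lt_one (by positivity)
        (inv_lt_one_of_one_lt₀ hβ)).const_mul M
    rw [mul_zero] at h2
    apply squeeze_zero_norm _ h2
    intro N
    rw [norm_mul, Real.norm_eq_abs, Real.norm_of_nonneg (by positivity : (0 : ℝ) ≤ (β ^ N)⁻¹),
      inv_pow]
    have := hM (n + N)
    gcongr
  have hs := (summable_val hβ (x := fun i => x (n + i)) (fun i => h0 _) (fun i => h1 _)).hasSum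
  have hs2 := hs.tendsto_sum_nat
  have he : (fun N : ℕ => ∑ i ∈ Finset.range N, x (n + i) * (β ^ (i + 1))⁻¹) =
      fun N : ℕ => r n - r (n + N) * (β ^ N)⁻¹ := funext hpart
  rw [he] at hs2
  have := tendsto_nhds_unique hs2 hlim
  rw [sub_zero] at this
  exact this

/-- greedy remainders -/
noncomputable def rem (β t : ℝ) : ℕ → ℝ
  | 0 => t
  | n + 1 => if 1 ≤ β * rem β t n then β * rem β t n - 1 else β * rem β t n

/-- greedy digits -/
noncomputable def dig (β t : ℝ) (n : ℕ) : ℝ := if 1 ≤ β * rem β t n then 1 else 0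

lemma dig_nonneg (β t : ℝ) (n : ℕ) : 0 ≤ dig β t n := by
  unfold dig; split_ifs <;> norm_num

lemma dig_le_one (β t : ℝ) (n : ℕ) : dig β t n ≤ 1 := by
  unfold dig; split_ifs <;> norm_num

lemma rem_rec (β t : ℝ) (n : ℕ) : rem β t (n + 1) = β * rem β t n - dig β t n := by
  unfold dig
  rw [rem]
  split_ifs <;> ring

lemma rem_bounds (hβ : 1 < β) (hβ2 : β < 2) {t : ℝ} (ht0 : 0 ≤ t) (ht1 : t ≤ 1 / (β - 1))
    (n : ℕ) : 0 ≤ rem β t n ∧ rem β t n ≤ 1 / (β - 1) := by
  have hb : (0 : ℝ) < β := by linarith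
  have hb1 : (0 : ℝ) < β - 1 := by linarith
  induction n with
  | zero => exact ⟨ht0, ht1⟩
  | succ n ih =>
    rw [rem]
    split_ifs with h
    · refine ⟨by linarith, ?_⟩
      have h2 : β * rem β t n ≤ β * (1 / (β - 1)) := by
        have := ih.2
        gcongr
      have h3 : β * (1 / (β - 1)) - 1 = 1 / (β - 1) := by
        field_simp
        ring
      linarith
    · push Not at h
      refine ⟨mul_nonneg hb.le ih.1, ?_⟩
      have : 1 ≤ 1 / (β - 1) := by
        rw [le_div_iff₀ hb1]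
        linarith
      linarith

lemma rem_one_le (hβ : 1 < β) (hβ2 : β < 2) (n : ℕ) : rem β 1 n ≤ 1 := by
  have hb : (0 : ℝ) < β := by linarith
  induction n with
  | zero => exact le_rfl
  | succ n ih =>
    rw [rem]
    split_ifs with h
    · nlinarith
    · push Not at h
      exact h.le

lemma val_dig (hβ : 1 < β) (hβ2 : β < 2) {t : ℝ} (ht0 : 0 ≤ t) (ht1 : t ≤ 1 / (β - 1))
    (n : ℕ) : val β (fun i => dig β t (n + i)) = rem β t n := by
  apply val_of_rec hβ (dig_nonneg β t) (dig_le_one β t) (rem_rec β t) (M := 1 / (β - 1))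
  intro n
  have := rem_bounds hβ hβ2 ht0 ht1 n
  rw [abs_of_nonneg this.1]
  exact this.2

/-- strict monotonicity in the base -/
lemma val_lt_one {β' : ℝ} (hβ : 1 < β) (hββ' : β < β') {x : ℕ → ℝ} (h0 : ∀ i, 0 ≤ x i)
    (h1 : ∀ i, x i ≤ 1) (hv : val β x ≤ 1) : val β' x < 1 := by
  have hb : (0 : ℝ) < β := by linarith
  have hβ' : 1 < β' := by linarith
  have hb' : (0 : ℝ) < β' := by linarith
  by_cases hz : ∀ i, x i = 0
  · unfold val
    simp [hz]
  · push Not at hz
    obtain ⟨j, hj⟩ := hz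
    refine lt_of_lt_of_le ?_ hv
    have hle : ∀ i, x i * (β' ^ (i + 1))⁻¹ ≤ x i * (β ^ (i + 1))⁻¹ := by
      intro i
      have := h0 i
      gcongr
    apply Summable.tsum_lt_tsum (i := j) hle _ (summable_val hβ' h0 h1) (summable_val hβ h0 h1)
    have hxj : 0 < x j := lt_of_le_of_ne (h0 j) (Ne.symm hj)
    have hpow : β ^ (j + 1) < β' ^ (j + 1) := pow_lt_pow_left₀ hββ' hb.le (Nat.succ_ne_zero j)
    have : (β' ^ (j + 1))⁻¹ < (β ^ (j + 1))⁻¹ := by
      apply inv_strictAnti₀ (by positivity) hpow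
    exact mul_lt_mul_of_pos_left this hxj

/-- a sequence without two consecutive ones -/
lemma val_sparse (hβ : 1 < β) (hφ : 1 < β ^ 2 - β) {x : ℕ → ℝ} (h0 : ∀ i, 0 ≤ x i)
    (h1 : ∀ i, x i ≤ 1) (hs : ∀ i, x i + x (i + 1) ≤ 1) : val β x < 1 := by
  have hb : (0 : ℝ) < β := by linarith
  have hb1 : (0 : ℝ) < β - 1 := by linarith
  have hsh := val_shift hβ h0 h1
  have hsum : val β x + val β (fun i => x (i + 1)) ≤ 1 / (β - 1) := by
    unfold val
    rw [← (summable_val hβ h0 h1).tsum_add (summable_val hβ (x := fun i => x (i + 1))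
      (fun i => h0 _) (fun i => h1 _)), ← (hasSum_geo hβ).tsum_eq]
    apply Summable.tsum_le_tsum _ _ (hasSum_geo hβ).summable
    · intro i
      rw [← add_mul]
      exact mul_le_of_le_one_left (by positivity) (hs i)
    · exact (summable_val hβ h0 h1).add (summable_val hβ (x := fun i => x (i + 1))
        (fun i => h0 _) (fun i => h1 _))
  have hx0 := h1 0
  have h3 : val β x * (1 + β) ≤ 1 + 1 / (β - 1) := by nlinarith
  have h4 : 1 + 1 / (β - 1) = β / (β - 1) := by
    field_simp
    ring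
  rw [h4] at h3
  have h5 : β / (β - 1) < 1 * (1 + β) := by
    rw [div_lt_iff₀ hb1]
    nlinarith
  by_contra hcon
  push Not at hcon
  nlinarith

end real

section gasket

variable {β : ℝ}

lemma proj_eq (hβ : 1 < β) (d : ℕ → Fin 3) :
    proj β d = (val β (ind 1 d), val β (ind 2 d)) := by
  have h1 := (summable_val hβ (ind_nonneg 1 d) (ind_le_one 1 d)).hasSum
  have h2 := (summable_val hβ (ind_nonneg 2 d) (ind_le_one 2 d)).hasSum
  have h := h1.prodMk h2
  have e : (fun i : ℕ => (ind 1 d i * (β ^ (i + 1))⁻¹, ind 2 d i * (β ^ (i + 1))⁻¹)) =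
      fun i : ℕ => (β ^ (i + 1))⁻¹ • digit (d i) := by
    funext i
    unfold ind digit
    have hd : d i = 0 ∨ d i = 1 ∨ d i = 2 := by
      have : ∀ k : Fin 3, k = 0 ∨ k = 1 ∨ k = 2 := by decide
      exact this (d i)
    rcases hd with hd | hd | hd <;> simp [hd]
  rw [e] at h
  exact h.tsum_eq

lemma ind_sum (d : ℕ → Fin 3) (i : ℕ) : ind 0 d i + ind 1 d i + ind 2 d i = 1 := by
  unfold ind
  have hd : d i = 0 ∨ d i = 1 ∨ d i = 2 := by
    have : ∀ k : Fin 3, k = 0 ∨ k = 1 ∨ k = 2 := by decide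
    exact this (d i)
  rcases hd with hd | hd | hd <;> simp [hd]

lemma val_sum (hβ : 1 < β) (d : ℕ → Fin 3) :
    val β (ind 0 d) + val β (ind 1 d) + val β (ind 2 d) = 1 / (β - 1) := by
  unfold val
  rw [← (summable_val hβ (ind_nonneg 0 d) (ind_le_one 0 d)).tsum_add
    (summable_val hβ (ind_nonneg 1 d) (ind_le_one 1 d)),
    ← ((summable_val hβ (ind_nonneg 0 d) (ind_le_one 0 d)).add
    (summable_val hβ (ind_nonneg 1 d) (ind_le_one 1 d))).tsum_add
    (summable_val hβ (ind_nonneg 2 d) (ind_le_one 2 d)), ← (hasSum_geo hβ).tsum_eq]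
  apply tsum_congr
  intro i
  rw [← add_mul, ← add_mul, ind_sum, one_mul]

lemma val_ind_eq (hβ : 1 < β) {c d : ℕ → Fin 3} (h : proj β c = proj β d) (k : Fin 3) :
    val β (ind k c) = val β (ind k d) := by
  rw [proj_eq hβ, proj_eq hβ, Prod.mk.injEq] at h
  have h1 := val_sum hβ c
  have h2 := val_sum hβ d
  have hk : k = 0 ∨ k = 1 ∨ k = 2 := by
    have : ∀ k : Fin 3, k = 0 ∨ k = 1 ∨ k = 2 := by decide
    exact this k
  rcases hk with rfl | rfl | rfl
  · linarith [h.1, h.2]
  · exact h.1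
  · exact h.2

lemma ind_shift (k : Fin 3) (d : ℕ → Fin 3) (n : ℕ) :
    (fun i => ind k d (n + i)) = ind k (fun i => d (n + i)) := rfl

/-- peeling off equal prefixes -/
lemma val_ind_eq_shift (hβ : 1 < β) {c d : ℕ → Fin 3} (h : proj β c = proj β d) (k : Fin 3) :
    ∀ n : ℕ, (∀ i < n, c i = d i) →
      val β (fun i => ind k c (n + i)) = val β (fun i => ind k d (n + i)) := by
  intro n
  induction n with
  | zero =>
    intro _
    simpa using val_ind_eq hβ h k
  | succ n ih =>
    intro hn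
    have h1 := ih (fun i hi => hn i (by omega))
    have e1 := val_shift hβ (x := fun i => ind k c (n + i)) (fun i => ind_nonneg _ _ _)
      (fun i => ind_le_one _ _ _)
    have e2 := val_shift hβ (x := fun i => ind k d (n + i)) (fun i => ind_nonneg _ _ _)
      (fun i => ind_le_one _ _ _)
    have h0 : ind k c (n + 0) = ind k d (n + 0) := by
      unfold ind
      rw [hn (n + 0) (by omega)]
    have e3 : (fun i => ind k c (n + 1 + i)) = fun i => ind k c (n + (i + 1)) := by
      funext i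
      congr 1
      ring
    have e4 : (fun i => ind k d (n + 1 + i)) = fun i => ind k d (n + (i + 1)) := by
      funext i
      congr 1
      ring
    rw [e3, e4]
    rw [h1, e2, h0] at e1
    linarith

/-- A criterion for unique codings. -/
lemma unique_of (hβ : 1 < β) {d : ℕ → Fin 3}
    (hd : ∀ n k, d n ≠ k → val β (fun i => ind k d (n + 1 + i)) < 1) : d ∈ Utilde β := by
  refine ⟨d, rfl, ?_⟩
  intro c hc
  by_contra hne
  have hex : ∃ n, c n ≠ d n := Function.ne_iff.mp hne
  classical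
  set n := Nat.find hex with hn
  have hn1 : c n ≠ d n := Nat.find_spec hex
  have hn2 : ∀ i < n, c i = d i := by
    intro i hi
    by_contra h
    exact Nat.find_min hex hi h
  have h1 := val_ind_eq_shift hβ hc (c n) n hn2
  have e1 := val_shift hβ (x := fun i => ind (c n) c (n + i)) (fun i => ind_nonneg _ _ _)
      (fun i => ind_le_one _ _ _)
  have e2 := val_shift hβ (x := fun i => ind (c n) d (n + i)) (fun i => ind_nonneg _ _ _)
      (fun i => ind_le_one _ _ _)
  have h2 : ind (c n) c (n + 0) = 1 := by simp [ind]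
  have h3 : ind (c n) d (n + 0) = 0 := by
    unfold ind
    rw [if_neg]
    exact fun h => hn1 h.symm
  have h4 := hd n (c n) hn1.symm
  have e4 : (fun i => ind (c n) d (n + 1 + i)) = fun i => ind (c n) d (n + (i + 1)) := by
    funext i
    congr 1
    ring
  rw [e4] at h4
  have h5 : 0 ≤ val β (fun i => ind (c n) c (n + (i + 1))) :=
    val_nonneg hβ (fun i => ind_nonneg _ _ _)
  rw [h1] at e1
  rw [h2] at e1
  rw [h3] at e2
  linarith

end gasket

section construction

variable (β : ℝ)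

/-- the ones of `b = 0 α(β)`, `α(β)` the greedy expansion of `1` in base `β` -/
def isB : ℕ → Prop
  | 0 => False
  | n + 1 => 1 ≤ β * rem β 1 n

open Classical in
/-- the parity of the number of non-`B` letters before position `n` -/
noncomputable def par : ℕ → Bool
  | 0 => false
  | n + 1 => if isB β n then par n else !(par n)

open Classical in
/-- the critical coding -/
noncomputable def e (n : ℕ) : Fin 3 := if isB β n then 1 else if par β n then 2 else 0

lemma e_zero : e β 0 = 0 := by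
  simp [e, isB, par]

lemma ind_one_zero : ind 1 (e β) 0 = 0 := by
  simp [ind, e_zero]

lemma ind_one_succ (n : ℕ) : ind 1 (e β) (n + 1) = dig β 1 n := by
  unfold ind e dig
  by_cases h : isB β (n + 1)
  · have h' : 1 ≤ β * rem β 1 n := h
    simp [h, h']
  · have h' : ¬ 1 ≤ β * rem β 1 n := h
    simp only [h, h', if_false]
    split_ifs with h2 h3 h3
    · exact absurd h3 (by decide)
    · rfl
    · exact absurd h3 (by decide)
    · rfl

/-- letters `0` and `2` are never repeated consecutively -/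
lemma sparse (k : Fin 3) (hk : k ≠ 1) (n : ℕ) : ind k (e β) n + ind k (e β) (n + 1) ≤ 1 := by
  by_cases h1 : e β n = k
  · have h2 : e β (n + 1) ≠ k := by
      intro h2
      have hB1 : ¬ isB β n := by
        intro h
        apply hk
        rw [← h1, e, if_pos h]
      have hB2 : ¬ isB β (n + 1) := by
        intro h
        apply hk
        rw [← h2, e, if_pos h]
      have e1 : e β n = if par β n then 2 else 0 := by rw [e, if_neg hB1]
      have e2 : e β (n + 1) = if par β (n + 1) then 2 else 0 := by rw [e, if_neg hB2]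
      have e3 : par β (n + 1) = !(par β n) := by rw [par, if_neg hB1]
      rw [e3] at e2
      rw [← h1, e1] at h2
      rw [e2] at h2
      cases hp : par β n <;> simp [hp] at h2
    unfold ind
    rw [if_pos h1, if_neg h2]
    norm_num
  · have := ind_le_one k (e β) (n + 1)
    have h3 : ind k (e β) n = 0 := by
      unfold ind
      rw [if_neg h1]
    linarith

variable {β}

lemma e_unique (hφ : 1 ≤ β ^ 2 - β) (hβ : 1 < β) (hβ2 : β < 2) {β' : ℝ} (hββ' : β < β') :
    e β ∈ Utilde β' := by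
  have hβ' : 1 < β' := by linarith
  have hone : (1 : ℝ) ≤ 1 / (β - 1) := by
    rw [le_div_iff₀ (by linarith)]
    linarith
  apply unique_of hβ'
  intro n k hk
  by_cases hk1 : k = 1
  · subst hk1
    apply val_lt_one hβ hββ' (fun i => ind_nonneg _ _ _) (fun i => ind_le_one _ _ _)
    have : (fun i => ind 1 (e β) (n + 1 + i)) = fun i => dig β 1 (n + i) := by
      funext i
      rw [show n + 1 + i = (n + i) + 1 by ring, ind_one_succ]
    rw [this, val_dig hβ hβ2 zero_le_one hone]
    exact rem_one_le hβ hβ2 n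
  · apply val_sparse hβ' _ (fun i => ind_nonneg _ _ _) (fun i => ind_le_one _ _ _)
    · intro i
      exact sparse β k hk1 (n + 1 + i)
    · nlinarith

lemma e_not_unique (hβ : 1 < β) (hβ2 : β < 2) : e β ∉ Utilde β := by
  have hb : (0 : ℝ) < β := by linarith
  have hone : (1 : ℝ) ≤ 1 / (β - 1) := by
    rw [le_div_iff₀ (by linarith)]
    linarith
  set t : ℝ := val β (fun i => ind 2 (e β) (i + 1)) with ht
  have ht0 : 0 ≤ t := val_nonneg hβ (fun i => ind_nonneg _ _ _)
  have ht1 : t ≤ 1 / (β - 1) := val_le hβ (fun i => ind_nonneg _ _ _) (fun i => ind_le_one _ _ _)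
  -- the second coding
  classical
  set c : ℕ → Fin 3 := fun n => match n with
    | 0 => 1
    | m + 1 => if 1 ≤ β * rem β t m then 2 else 0 with hc
  have hc0 : c 0 = 1 := rfl
  have hcs : ∀ m, c (m + 1) = if 1 ≤ β * rem β t m then 2 else 0 := fun m => rfl
  have h1c : val β (ind 1 c) = β⁻¹ := by
    have h := val_shift hβ (ind_nonneg 1 c) (ind_le_one 1 c)
    have h2 : (fun i => ind 1 c (i + 1)) = fun _ => 0 := by
      funext i
      unfold ind
      rw [hcs]
      split_ifs with h3 h4 h4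
      · exact absurd h4 (by decide)
      · rfl
      · exact absurd h4 (by decide)
      · rfl
    have h3 : ind 1 c 0 = 1 := by simp [ind, hc0]
    rw [h2, h3] at h
    have h4 : val β (fun _ => 0) = 0 := by simp [val]
    rw [h4, add_zero] at h
    field_simp
    linarith
  have h2c : β * val β (ind 2 c) = t := by
    have h := val_shift hβ (ind_nonneg 2 c) (ind_le_one 2 c)
    have h2 : (fun i => ind 2 c (i + 1)) = fun i => dig β t (0 + i) := by
      funext i
      unfold ind dig
      rw [hcs, zero_add]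
      split_ifs with h3 h4 h4
      · rfl
      · exact absurd rfl h4
      · exact absurd h4 (by decide)
      · rfl
    have h3 : ind 2 c 0 = 0 := by simp [ind, hc0]
    rw [h2, h3, val_dig hβ hβ2 ht0 ht1, zero_add] at h
    exact h
  have h1e : val β (ind 1 (e β)) = β⁻¹ := by
    have h := val_shift hβ (ind_nonneg 1 (e β)) (ind_le_one 1 (e β))
    have h2 : (fun i => ind 1 (e β) (i + 1)) = fun i => dig β 1 (0 + i) := by
      funext i
      rw [ind_one_succ, zero_add]
    rw [h2, ind_one_zero, val_dig hβ hβ2 zero_le_one hone, zero_add] at h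
    have h3 : rem β 1 0 = 1 := rfl
    rw [h3] at h
    field_simp
    linarith
  have h2e : β * val β (ind 2 (e β)) = t := by
    have h := val_shift hβ (ind_nonneg 2 (e β)) (ind_le_one 2 (e β))
    have h3 : ind 2 (e β) 0 = 0 := by simp [ind, e_zero]
    rw [h3, zero_add] at h
    exact h
  have hproj : proj β c = proj β (e β) := by
    rw [proj_eq hβ, proj_eq hβ, h1c, h1e]
    congr 1
    have : β * val β (ind 2 c) = β * val β (ind 2 (e β)) := by rw [h2c, h2e]
    exact mul_left_cancel₀ hb.ne' this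
  rintro ⟨d, hd, huniq⟩
  have h5 := huniq c hproj
  have h6 := huniq (e β) rfl
  have h7 : c 0 = e β 0 := by rw [h5, h6]
  rw [hc0, e_zero] at h7
  exact absurd h7 (by decide)

end construction

/-- For every `β` in `[φ, 2)` the map `β ↦ Ũ_β` is not locally constant at `β`. -/
theorem not_locallyConstantAt {β : ℝ} (h1 : Real.goldenRatio ≤ β) (h2 : β < 2) :
    ¬ LocallyConstantAt β := by
  have hφ1 : 1 < Real.goldenRatio := Real.one_lt_goldenRatio
  have hβ : 1 < β := by linarith
  have hφ : 1 ≤ β ^ 2 - β := by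
    have := Real.goldenRatio_sq
    nlinarith
  rintro ⟨ε, hε, hconst⟩
  set β' : ℝ := min (β + ε / 2) ((β + 2) / 2) with hβ'
  have hb1 : β < β' := by
    rw [hβ', lt_min_iff]
    constructor <;> linarith
  have hb2 : β' < 2 := by
    rw [hβ', min_lt_iff]
    right
    linarith
  have hb3 : β' ≤ β + ε / 2 := min_le_left _ _
  have h := hconst β' ⟨by linarith, hb2⟩ (by rw [abs_of_pos (by linarith)]; linarith)
  have hmem := e_unique hφ hβ h2 hb1
  rw [h] at hmem
  exact e_not_unique hβ h2 hmem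

/-- The map `β ↦ Ũ_β` fails to be locally constant at every `β ∈ [(1+√5)/2, 2)`; in particular the
set of `β ∈ (1,2)` at which it is not locally constant has positive Lebesgue measure. -/
theorem result : (∀ β ∈ Ico Real.goldenRatio 2, ¬ LocallyConstantAt β) ∧
    0 < volume {β : ℝ | β ∈ Ioo (1 : ℝ) 2 ∧ ¬ LocallyConstantAt β} := by
  have h : ∀ β ∈ Ico Real.goldenRatio 2, ¬ LocallyConstantAt β :=
    fun β hβ => not_locallyConstantAt hβ.1 hβ.2
  refine ⟨h, ?_⟩
  have hsub : Ico Real.goldenRatio 2 ⊆ {β : ℝ | β ∈ Ioo (1 : ℝ) 2 ∧ ¬ LocallyConstantAt β} :=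
    fun β hβ => ⟨⟨Real.one_lt_goldenRatio.trans_le hβ.1, hβ.2⟩, h β hβ⟩
  refine lt_of_lt_of_le ?_ (measure_mono hsub)
  rw [Real.volume_Ico, ENNReal.ofReal_pos]
  linarith [Real.goldenRatio_lt_two]

end Pool.Agent.Results.MP_c4d56e_an.NowhereLocallyConstant
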